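import Pool.Agent.J4H74.LI.Half

set_option autoImplicit false

namespace Pool.Agent.J4H74.LI

open Set Filter Topology
open Pool.Agent.J4H16.LI

/-- a Gronwall type comparison -/
lemma compare {D D' : ℝ → ℝ} {a b K : ℝ} (hc : ContinuousOn D (Icc a b)) (h0 : D a ≤ 0)
    (hd : ∀ x ∈ Ioo a b, HasDerivAt D (D' x) x)
    (hle : ∀ x ∈ Ioo a b, 0 < D x → D' x ≤ K * D x) : ∀ x ∈ Icc a b, D x ≤ 0 := by
  intro x₁ hx₁
  by_contra hcon
  push Not at hcon
  have hax : a < x₁ := lt_of_le_of_ne hx₁.1 (fun h => by rw [← h] at hcon; linarith)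
  have hcS : ContinuousOn D (Icc a x₁) := hc.mono (Icc_subset_Icc_right hx₁.2)
  set S : Set ℝ := Icc a x₁ ∩ D ⁻¹' Iic 0 with hS
  have hScl : IsClosed S := hcS.preimage_isClosed_of_isClosed isClosed_Icc isClosed_Iic
  have hSne : S.Nonempty := ⟨a, ⟨le_rfl, hax.le⟩, h0⟩
  have hSbd : BddAbove S := ⟨x₁, fun t ht => ht.1.2⟩
  set c := sSup S with hcdef
  have hcS' : c ∈ S := hScl.csSup_mem hSne hSbd
  have hDc : D c ≤ 0 := hcS'.2
  have hcx : c < x₁ := lt_of_le_of_ne hcS'.1.2 (fun h => by rw [h] at hDc; linarith)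
  have hpos : ∀ t ∈ Ioo c x₁, 0 < D t := by
    intro t ht
    by_contra h1
    push Not at h1
    have h2 : t ≤ c := le_csSup hSbd ⟨⟨hcS'.1.1.trans ht.1.le, ht.2.le⟩, h1⟩
    linarith [ht.1]
  have hanti : AntitoneOn (fun t => D t * Real.exp (-K * t)) (Icc c x₁) := by
    refine antitoneOn_of_deriv_nonpos (convex_Icc _ _) ?_ ?_ ?_
    · exact (hcS.mono (Icc_subset_Icc_left hcS'.1.1)).mul (by fun_prop)
    · intro t ht
      rw [interior_Icc] at ht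
      have h1 : t ∈ Ioo a b := ⟨lt_of_le_of_lt hcS'.1.1 ht.1, lt_of_lt_of_le ht.2 hx₁.2⟩
      exact ((hd t h1).mul (((hasDerivAt_id t).const_mul (-K)).exp)).differentiableAt
        |>.differentiableWithinAt
    · intro t ht
      rw [interior_Icc] at ht
      have h1 : t ∈ Ioo a b := ⟨lt_of_le_of_lt hcS'.1.1 ht.1, lt_of_lt_of_le ht.2 hx₁.2⟩
      have h2 := (hd t h1).mul (((hasDerivAt_id t).const_mul (-K)).exp)
      have h3 := h2.deriv
      change deriv (D * fun t => Real.exp (-K * t)) t ≤ 0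
      have h4 : deriv (D * fun t => Real.exp (-K * t)) t =
          D' t * Real.exp (-K * t) + D t * (Real.exp (-K * t) * (-K * 1)) := h3
      rw [h4]
      have h5 := hle t h1 (hpos t ht)
      have h6 := Real.exp_pos (-K * t)
      nlinarith
  have h1 := hanti ⟨le_rfl, hcx.le⟩ ⟨hcx.le, le_rfl⟩ hcx.le
  simp only at h1
  have h2 := Real.exp_pos (-K * x₁)
  have h3 := Real.exp_pos (-K * c)
  have h4 : D c * Real.exp (-K * c) ≤ 0 := mul_nonpos_of_nonpos_of_nonneg hDc h3.le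
  have h5 : 0 < D x₁ * Real.exp (-K * x₁) := mul_pos hcon h2
  linarith

/-- the lower end of an arc as a graph over the `x`-axis -/
lemma graph_x {Φ : ℝ → ℝ → ℝ} {g : ℝ → ℝ} (h : Sys Φ g) {s B Y : ℝ} {u : ℝ → ℝ}
    (hA : Arc Φ g s B Y u) {δ : ℝ} (hδ : 0 < δ) (hδY : -B + δ < Y)
    (hden : ∀ y ∈ Icc (-B) (-B + δ), 0 < s * u y - Φ (u y) y) :
    StrictMonoOn u (Icc (-B) (-B + δ)) ∧ 0 < u (-B + δ) ∧ ∃ η : ℝ → ℝ, Continuous η ∧
      η 0 = -B ∧ (∀ y ∈ Icc (-B) (-B + δ), η (u y) = y) ∧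
      (∀ x ∈ Icc 0 (u (-B + δ)), η x ∈ Icc (-B) (-B + δ) ∧ u (η x) = x) ∧
      ∀ x ∈ Ioo 0 (u (-B + δ)), HasDerivAt η (g x / (s * x - Φ x (η x))) x := by
  have hgu : ∀ y ∈ Ioo (-B) (-B + δ), 0 < g (u y) := by
    intro y hy
    have h1 := hA.pos y ⟨hy.1, hy.2.trans hδY⟩
    exact (pos_iff_pos_of_mul_pos (h.posg (u y) (ne_of_gt h1))).1 h1
  have hu0 : u (-B) = 0 := hA.out _ (by simp)
  have hmono : StrictMonoOn u (Icc (-B) (-B + δ)) := by
    refine strictMonoOn_of_deriv_pos (convex_Icc _ _) hA.cont.continuousOn fun y hy => ?_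
    rw [interior_Icc] at hy
    rw [(hA.der y ⟨hy.1, hy.2.trans hδY⟩).deriv]
    refine div_pos ?_ (hgu y hy)
    have := hden y ⟨hy.1.le, hy.2.le⟩
    linarith
  have hlt : -B < -B + δ := by linarith
  have hx1 : 0 < u (-B + δ) := by
    rw [← hu0]
    exact hmono ⟨le_rfl, hlt.le⟩ ⟨hlt.le, le_rfl⟩ hlt
  obtain ⟨τ, hτc, hτ, -, -⟩ := exists_inv hlt (y := fun y => -u y) hA.cont.neg.continuousOn
    (fun a ha b hb hab => neg_lt_neg (hmono ha hb hab))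
  set η : ℝ → ℝ := fun x => τ (-x) with hη
  have hηc : Continuous η := hτc.comp continuous_neg
  have hinv : ∀ y ∈ Icc (-B) (-B + δ), η (u y) = y := fun y hy => hτ y hy
  have hback : ∀ x ∈ Icc 0 (u (-B + δ)), η x ∈ Icc (-B) (-B + δ) ∧ u (η x) = x := by
    intro x hx
    rw [← hu0] at hx
    obtain ⟨y, hy, rfl⟩ := intermediate_value_Icc hlt.le hA.cont.continuousOn hx
    rw [hinv y hy]
    exact ⟨hy, rfl⟩
  refine ⟨hmono, hx1, η, hηc, ?_, hinv, hback, ?_⟩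
  · have := hinv (-B) ⟨le_rfl, hlt.le⟩
    rwa [hu0] at this
  · intro x hx
    obtain ⟨h1, h2⟩ := hback x ⟨hx.1.le, hx.2.le⟩
    have h3 : -B < η x := lt_of_le_of_ne h1.1 (fun h4 => by
      rw [← h4, hu0] at h2
      exact (ne_of_lt hx.1) h2)
    have h4 : η x < -B + δ := lt_of_le_of_ne h1.2 (fun h4 => by
      rw [h4] at h2
      exact (ne_of_gt hx.2) h2)
    have h5 := hA.der (η x) ⟨h3, h4.trans hδY⟩
    have h6 := hden (η x) h1
    have h7 := hgu (η x) ⟨h3, h4⟩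
    rw [h2] at h5 h6 h7
    have h8 : HasDerivAt η (-(Φ x (η x) - s * x) / g x)⁻¹ x := by
      refine HasDerivAt.of_local_left_inverse hηc.continuousAt h5 ?_ ?_
      · refine ne_of_gt (div_pos ?_ h7)
        linarith
      · filter_upwards [Ioo_mem_nhds hx.1 hx.2] with x' hx'
        exact (hback x' ⟨hx'.1.le, hx'.2.le⟩).2
    have h9 : g x / (s * x - Φ x (η x)) = (-(Φ x (η x) - s * x) / g x)⁻¹ := by
      rw [inv_div]
      congr 1
      ring
    rw [h9]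
    exact h8

theorem t_AX : S_AX := by
  intro Φ g h s₁ s₂ B Y₁ Y₂ u₁ u₂ hs hA₁ hA₂
  have hΦc : Continuous fun z : ℝ × ℝ => Φ z.1 z.2 := h.smΦ.continuous
  have hg0 : g 0 = 0 := zero_of_pos h.smg.continuous h.posg
  have hΦneg : Φ 0 (-B) < 0 := by
    have h1 := h.posΦ (-B) (by have := hA₁.hB; intro h0; linarith)
    have h2 := hA₁.hB
    by_contra hcon
    push Not at hcon
    nlinarith
  set m : ℝ := -Φ 0 (-B) / 2 with hm
  have hm0 : 0 < m := by rw [hm]; linarith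
  obtain ⟨L, U, hU, hL⟩ := (h.smΦ.contDiffAt (x := ((0 : ℝ), -B))).exists_lipschitzOnWith
  have hden : ∀ s : ℝ, ∀ᶠ z in 𝓝 ((0 : ℝ), -B), m < s * z.1 - Φ z.1 z.2 := by
    intro s
    have h1 : Continuous fun z : ℝ × ℝ => s * z.1 - Φ z.1 z.2 :=
      (continuous_const.mul continuous_fst).sub hΦc
    refine h1.continuousAt.eventually (lt_mem_nhds ?_)
    simp only [mul_zero, zero_sub]
    rw [hm]
    linarith
  have hgsm : ∀ᶠ z in 𝓝 ((0 : ℝ), -B), |g z.1| < 1 := by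
    have h1 : Continuous fun z : ℝ × ℝ => |g z.1| :=
      (h.smg.continuous.comp continuous_fst).abs
    refine h1.continuousAt.eventually (gt_mem_nhds ?_)
    simp [hg0]
  obtain ⟨r, hr, hb⟩ := Metric.eventually_nhds_iff_ball.1
    (((hden s₁).and (hden s₂)).and (hgsm.and hU))
  have hball : ∀ x y : ℝ, |x| < r → |y + B| < r → (x, y) ∈ Metric.ball ((0 : ℝ), -B) r := by
    intro x y hx hy
    rw [Metric.mem_ball, Prod.dist_eq, max_lt_iff]
    refine ⟨?_, ?_⟩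
    · simpa [Real.dist_eq] using hx
    · simpa [Real.dist_eq] using hy
  have hu0 : ∀ {s Y : ℝ} {u : ℝ → ℝ}, Arc Φ g s B Y u → u (-B) = 0 := fun hA => hA.out _ (by simp)
  have hunn : ∀ {s Y : ℝ} {u : ℝ → ℝ}, Arc Φ g s B Y u → ∀ y, 0 ≤ u y := by
    intro s Y u hA y
    by_cases hy : y ∈ Ioo (-B) Y
    · exact (hA.pos y hy).le
    · exact (hA.out y hy).ge
  -- the choice of `δ`
  have hsmall : ∀ {s Y : ℝ} {u : ℝ → ℝ}, Arc Φ g s B Y u → ∀ e > 0, ∀ᶠ y in 𝓝 (-B), u y < e := by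
    intro s Y u hA e he
    exact hA.cont.continuousAt.eventually (gt_mem_nhds (by rw [hu0 hA]; exact he))
  obtain ⟨δ₀, hδ₀, hδb⟩ := Metric.eventually_nhds_iff_ball.1
    ((hsmall hA₁ r hr).and (hsmall hA₂ r hr))
  set δ : ℝ := min (min (δ₀ / 2) (r / 2)) (min ((Y₁ + B) / 2) ((Y₂ + B) / 2)) with hδdef
  have hB := hA₁.hB
  have hY₁ := hA₁.hY
  have hY₂ := hA₂.hY
  have hδ : 0 < δ := by
    rw [hδdef]
    refine lt_min (lt_min ?_ ?_) (lt_min ?_ ?_) <;> linarith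
  have hδ1 : δ ≤ δ₀ / 2 := (min_le_left _ _).trans (min_le_left _ _)
  have hδ2 : δ ≤ r / 2 := (min_le_left _ _).trans (min_le_right _ _)
  have hδ3 : δ ≤ (Y₁ + B) / 2 := (min_le_right _ _).trans (min_le_left _ _)
  have hδ4 : δ ≤ (Y₂ + B) / 2 := (min_le_right _ _).trans (min_le_right _ _)
  have hrect : ∀ y ∈ Icc (-B) (-B + δ), |y + B| < r ∧ u₁ y < r ∧ u₂ y < r := by
    intro y hy
    have h1 : |y + B| ≤ δ := by
      rw [abs_of_nonneg (by linarith [hy.1])]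
      linarith [hy.2]
    have h2 := hδb y (by
      rw [Metric.mem_ball, Real.dist_eq, sub_neg_eq_add]
      linarith)
    exact ⟨by linarith, h2⟩
  obtain ⟨hmono₁, hx₁, η₁, hη₁c, hη₁0, hη₁i, hη₁b, hη₁d⟩ := graph_x h hA₁ hδ (by linarith) (by
    intro y hy
    obtain ⟨h1, h2, h3⟩ := hrect y hy
    have h4 := (hb (u₁ y, y) (hball _ _ (by rw [abs_of_nonneg (hunn hA₁ y)]; exact h2) h1)).1.1
    simp only at h4
    linarith)
  obtain ⟨hmono₂, hx₂, η₂, hη₂c, hη₂0, hη₂i, hη₂b, hη₂d⟩ := graph_x h hA₂ hδ (by linarith) (by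
    intro y hy
    obtain ⟨h1, h2, h3⟩ := hrect y hy
    have h4 := (hb (u₂ y, y) (hball _ _ (by rw [abs_of_nonneg (hunn hA₂ y)]; exact h3) h1)).1.2
    simp only at h4
    linarith)
  set x₀ : ℝ := min (u₁ (-B + δ)) (u₂ (-B + δ)) with hx₀
  have hx₀pos : 0 < x₀ := lt_min hx₁ hx₂
  have hx₀r : x₀ < r := lt_of_le_of_lt (min_le_left _ _)
    (hrect (-B + δ) ⟨by linarith, le_rfl⟩).2.1
  -- the comparison
  have hD := compare (D := fun x => η₂ x - η₁ x)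
    (D' := fun x => g x / (s₂ * x - Φ x (η₂ x)) - g x / (s₁ * x - Φ x (η₁ x)))
    (a := 0) (b := x₀) (K := (L : ℝ) / (m * m)) (hη₂c.sub hη₁c).continuousOn
    (by simp only [hη₁0, hη₂0, sub_self, le_refl])
    (fun x hx => (hη₂d x ⟨hx.1, lt_of_lt_of_le hx.2 (min_le_right _ _)⟩).sub
      (hη₁d x ⟨hx.1, lt_of_lt_of_le hx.2 (min_le_left _ _)⟩))
    (by
      intro x hx hDx
      have hxr : |x| < r := by rw [abs_of_pos hx.1]; linarith [hx.2]
      have hE₁ := (hη₁b x ⟨hx.1.le, hx.2.le.trans (min_le_left _ _)⟩).1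
      have hE₂ := (hη₂b x ⟨hx.1.le, hx.2.le.trans (min_le_right _ _)⟩).1
      have hr₁ : |η₁ x + B| < r := (hrect _ hE₁).1
      have hr₂ : |η₂ x + B| < r := (hrect _ hE₂).1
      have hb₁ := hb (x, η₁ x) (hball _ _ hxr hr₁)
      have hb₂ := hb (x, η₂ x) (hball _ _ hxr hr₂)
      have hd1 : m < s₁ * x - Φ x (η₁ x) := hb₁.1.1
      have hd2 : m < s₁ * x - Φ x (η₂ x) := hb₂.1.1
      have hd3 : s₁ * x - Φ x (η₂ x) ≤ s₂ * x - Φ x (η₂ x) := by
        have := mul_le_mul_of_nonneg_right hs hx.1.le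
        linarith
      have hgx0 : 0 ≤ g x :=
        ((pos_iff_pos_of_mul_pos (h.posg x (ne_of_gt hx.1))).1 hx.1).le
      have hgx1 : g x ≤ 1 := (le_abs_self _).trans hb₁.2.1.le
      have hlip : |Φ x (η₁ x) - Φ x (η₂ x)| ≤ L * |η₁ x - η₂ x| := by
        have h1 := hL.dist_le_mul (x, η₁ x) hb₁.2.2 (x, η₂ x) hb₂.2.2
        have h2 : dist (x, η₁ x) (x, η₂ x) = |η₁ x - η₂ x| := by
          rw [Prod.dist_eq]
          simp [Real.dist_eq]
        rw [h2] at h1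
        exact h1
      have hstep1 : g x / (s₂ * x - Φ x (η₂ x)) ≤ g x / (s₁ * x - Φ x (η₂ x)) :=
        div_le_div_of_nonneg_left hgx0 (by linarith) hd3
      have hstep2 : g x / (s₁ * x - Φ x (η₂ x)) - g x / (s₁ * x - Φ x (η₁ x)) =
          g x * (Φ x (η₂ x) - Φ x (η₁ x)) /
            ((s₁ * x - Φ x (η₂ x)) * (s₁ * x - Φ x (η₁ x))) := by
        field_simp [show s₁ * x - Φ x (η₂ x) ≠ 0 by linarith,
          show s₁ * x - Φ x (η₁ x) ≠ 0 by linarith]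
        ring
      have habs : Φ x (η₂ x) - Φ x (η₁ x) ≤ L * (η₂ x - η₁ x) := by
        have h1 : |η₁ x - η₂ x| = η₂ x - η₁ x := by
          rw [abs_sub_comm, abs_of_pos hDx]
        rw [h1, abs_sub_comm] at hlip
        exact (le_abs_self _).trans hlip
      have hLnn : 0 ≤ (L : ℝ) * (η₂ x - η₁ x) := mul_nonneg L.2 hDx.le
      have hprod : m * m ≤ (s₁ * x - Φ x (η₂ x)) * (s₁ * x - Φ x (η₁ x)) :=
        mul_le_mul hd2.le hd1.le hm0.le (by linarith)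
      have hmm : 0 < m * m := mul_pos hm0 hm0
      have hnum : g x * (Φ x (η₂ x) - Φ x (η₁ x)) ≤ L * (η₂ x - η₁ x) := by
        calc g x * (Φ x (η₂ x) - Φ x (η₁ x)) ≤ g x * (L * (η₂ x - η₁ x)) :=
              mul_le_mul_of_nonneg_left habs hgx0
          _ ≤ 1 * (L * (η₂ x - η₁ x)) := mul_le_mul_of_nonneg_right hgx1 hLnn
          _ = L * (η₂ x - η₁ x) := one_mul _
      calc g x / (s₂ * x - Φ x (η₂ x)) - g x / (s₁ * x - Φ x (η₁ x))
          ≤ g x / (s₁ * x - Φ x (η₂ x)) - g x / (s₁ * x - Φ x (η₁ x)) := by linarith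
        _ = g x * (Φ x (η₂ x) - Φ x (η₁ x)) /
            ((s₁ * x - Φ x (η₂ x)) * (s₁ * x - Φ x (η₁ x))) := hstep2
        _ ≤ L * (η₂ x - η₁ x) / ((s₁ * x - Φ x (η₂ x)) * (s₁ * x - Φ x (η₁ x))) :=
            div_le_div_of_nonneg_right hnum (hmm.le.trans hprod)
        _ ≤ L * (η₂ x - η₁ x) / (m * m) := div_le_div_of_nonneg_left hLnn hmm hprod
        _ = L / (m * m) * (η₂ x - η₁ x) := by ring)
  -- the conclusion
  obtain ⟨δ', hδ', hδ'b⟩ := Metric.eventually_nhds_iff_ball.1 (hsmall hA₁ x₀ hx₀pos)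
  refine ⟨min δ δ', lt_min hδ hδ', fun y hy => ?_⟩
  have hyI : y ∈ Icc (-B) (-B + δ) :=
    ⟨hy.1.le, hy.2.le.trans (by linarith [min_le_left δ δ'])⟩
  have h1 : u₁ y < x₀ := hδ'b y (by
    rw [Metric.mem_ball, Real.dist_eq, sub_neg_eq_add, abs_of_pos (by linarith [hy.1])]
    linarith [hy.2, min_le_right δ δ'])
  have h2 : 0 ≤ u₁ y := hunn hA₁ y
  have h3 : η₂ (u₁ y) - η₁ (u₁ y) ≤ 0 := hD (u₁ y) ⟨h2, h1.le⟩
  rw [hη₁i y hyI] at h3
  have h4 := hη₂b (u₁ y) ⟨h2, h1.le.trans (min_le_right _ _)⟩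
  have h5 : η₂ (u₁ y) ≤ y := by linarith
  calc u₁ y = u₂ (η₂ (u₁ y)) := h4.2.symm
    _ ≤ u₂ y := hmono₂.monotoneOn h4.1 hyI h5

end Pool.Agent.J4H74.LI
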