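import Pool.Agent.J4H74.LI.Uni

set_option autoImplicit false

namespace Pool.Agent.J4H74.LI

open Set Filter Topology
open Pool.Agent.J4H16.LI

/-- a continuous function with `y f(y) > 0` vanishes at `0` -/
lemma zero_of_pos {f : ℝ → ℝ} (hf : Continuous f) (h : ∀ y, y ≠ 0 → 0 < y * f y) : f 0 = 0 := by
  apply le_antisymm
  · by_contra hcon
    push Not at hcon
    have h1 : ∀ᶠ y in 𝓝 (0 : ℝ), 0 < f y := hf.continuousAt.eventually (lt_mem_nhds hcon)
    obtain ⟨r, hr, hb⟩ := Metric.eventually_nhds_iff_ball.1 h1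
    have h2 := hb (-(r / 2)) (by
      rw [Metric.mem_ball, Real.dist_eq, sub_zero, abs_neg, abs_of_pos (by linarith)]
      linarith)
    have h3 := h (-(r / 2)) (by intro h0; linarith)
    nlinarith
  · by_contra hcon
    push Not at hcon
    have h1 : ∀ᶠ y in 𝓝 (0 : ℝ), f y < 0 := hf.continuousAt.eventually (gt_mem_nhds hcon)
    obtain ⟨r, hr, hb⟩ := Metric.eventually_nhds_iff_ball.1 h1
    have h2 := hb (r / 2) (by
      rw [Metric.mem_ball, Real.dist_eq, sub_zero, abs_of_pos (by linarith)]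
      linarith)
    have h3 := h (r / 2) (by intro h0; linarith)
    nlinarith

/-- the inverse of a strictly decreasing function on an interval -/
lemma exists_inv {a b : ℝ} (hab : a < b) {y : ℝ → ℝ} (hy : ContinuousOn y (Icc a b))
    (hanti : StrictAntiOn y (Icc a b)) :
    ∃ τ : ℝ → ℝ, Continuous τ ∧ (∀ t ∈ Icc a b, τ (y t) = t) ∧
      (∀ v, v ≤ y b → b ≤ τ v) ∧ (∀ v, y a ≤ v → τ v ≤ a) := by
  set P : ℝ → ℝ := fun t => max a (min b t) with hP
  have hPm : Monotone P := fun s t h => max_le_max le_rfl (min_le_min le_rfl h)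
  have hPmem : ∀ t, P t ∈ Icc a b := fun t =>
    ⟨le_max_left _ _, max_le hab.le (min_le_left _ _)⟩
  have hPid : ∀ t ∈ Icc a b, P t = t := by
    intro t ht
    simp only [hP]
    rw [min_eq_right ht.2, max_eq_right ht.1]
  have hPlo : ∀ t, t ≤ a → P t = a := by
    intro t ht
    simp only [hP]
    rw [min_eq_right (ht.trans hab.le), max_eq_left ht]
  have hPhi : ∀ t, b ≤ t → P t = b := by
    intro t ht
    simp only [hP]
    rw [min_eq_left ht, max_eq_right hab.le]
  have hPc : Continuous P := continuous_const.max (continuous_const.min continuous_id)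
  have hsub : Monotone fun t => t - P t := by
    intro s t h
    simp only
    rcases le_total t a with h1 | h1
    · rw [hPlo t h1, hPlo s (h.trans h1)]; linarith
    · rcases le_total t b with h2 | h2
      · rw [hPid t ⟨h1, h2⟩]
        rcases le_total s a with h3 | h3
        · rw [hPlo s h3]; linarith
        · rw [hPid s ⟨h3, h.trans h2⟩]; linarith
      · rw [hPhi t h2]
        rcases le_total s a with h3 | h3
        · rw [hPlo s h3]; linarith
        · rcases le_total s b with h4 | h4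
          · rw [hPid s ⟨h3, h4⟩]; linarith
          · rw [hPhi s h4]; linarith
  set w : ℝ → ℝ := fun t => -y (P t) + (t - P t) with hw
  have hwm : StrictMono w := by
    intro s t hst
    have h1 := hsub hst.le
    simp only at h1
    simp only [hw]
    rcases (hPm hst.le).lt_or_eq with h2 | h2
    · have := hanti (hPmem s) (hPmem t) h2
      linarith
    · rw [h2] at h1 ⊢
      linarith
  have hwc : Continuous w := by
    have h1 : Continuous fun t => y (P t) :=
      hy.comp_continuous hPc hPmem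
    exact h1.neg.add (continuous_id.sub hPc)
  have htop : Tendsto w atTop atTop := by
    have h1 : Tendsto (fun t : ℝ => t + (-y b - b)) atTop atTop :=
      tendsto_atTop_add_const_right _ _ tendsto_id
    refine h1.congr' ?_
    filter_upwards [eventually_ge_atTop b] with t ht
    simp only [hw, hPhi t ht]
    ring
  have hbot : Tendsto w atBot atBot := by
    have h1 : Tendsto (fun t : ℝ => t + (-y a - a)) atBot atBot :=
      tendsto_atBot_add_const_right _ _ tendsto_id
    refine h1.congr' ?_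
    filter_upwards [eventually_le_atBot a] with t ht
    simp only [hw, hPlo t ht]
    ring
  have hsurj : Function.Surjective w := hwc.surjective htop hbot
  set e : ℝ ≃o ℝ := hwm.orderIsoOfSurjective w hsurj with he
  have hee : ∀ t, e t = w t := fun t => rfl
  refine ⟨fun v => e.symm (-v), e.symm.continuous.comp continuous_neg, ?_, ?_, ?_⟩
  · intro t ht
    have h1 : -y t = e t := by
      rw [hee]
      simp only [hw, hPid t ht]
      ring
    simp only
    rw [h1, e.symm_apply_apply]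
  · intro v hv
    have h1 : e b ≤ -v := by
      rw [hee]
      simp only [hw, hPid b ⟨hab.le, le_rfl⟩]
      linarith
    have h2 := e.symm.monotone h1
    rwa [e.symm_apply_apply] at h2
  · intro v hv
    have h1 : -v ≤ e a := by
      rw [hee]
      simp only [hw, hPid a ⟨le_rfl, hab.le⟩]
      linarith
    have h2 := e.symm.monotone h1
    rwa [e.symm_apply_apply] at h2

theorem t_HALF : S_HALF := by
  intro Φ g h s γ T hT hγ hper t₀ hx₀ hy₀
  have hgc : Continuous g := h.smg.continuous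
  have hΦc : Continuous fun z : ℝ × ℝ => Φ z.1 z.2 := h.smΦ.continuous
  have hg0 : g 0 = 0 := zero_of_pos hgc h.posg
  have hΦ0c : Continuous (Φ 0) := by
    have : Φ 0 = fun y => (fun z : ℝ × ℝ => Φ z.1 z.2) (0, y) := rfl
    rw [this]
    exact hΦc.comp (by fun_prop)
  have hΦ0 : Φ 0 0 = 0 := zero_of_pos hΦ0c h.posΦ
  set x : ℝ → ℝ := fun t => (γ t).1 with hx
  set y : ℝ → ℝ := fun t => (γ t).2 with hy
  have hγc : Continuous γ := continuous_iff_continuousAt.2 fun t => (hγ t).continuousAt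
  have hxc : Continuous x := continuous_fst.comp hγc
  have hyc : Continuous y := continuous_snd.comp hγc
  have hxd : ∀ t, HasDerivAt x (Φ (x t) (y t) - s * x t) t := fun t => (hγ t).fst
  have hyd : ∀ t, HasDerivAt y (-g (x t)) t := fun t => (hγ t).snd
  have hYpos : 0 < Φ 0 (y t₀) := by
    have := h.posΦ (y t₀) (ne_of_gt hy₀)
    exact (pos_iff_pos_of_mul_pos this).1 hy₀
  -- positivity to the right of `t₀`
  have hd0 : HasDerivAt x (Φ 0 (y t₀)) t₀ := by
    have := hxd t₀
    rw [show x t₀ = 0 from hx₀] at this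
    simpa using this
  obtain ⟨ε, hε, hxε⟩ : ∃ ε > 0, ∀ t ∈ Ioo t₀ (t₀ + ε), 0 < x t := by
    have h1 : ∀ᶠ t in 𝓝[≠] t₀, 0 < slope x t₀ t :=
      (hasDerivAt_iff_tendsto_slope.1 hd0).eventually (lt_mem_nhds hYpos)
    rw [eventually_nhdsWithin_iff] at h1
    obtain ⟨ε, hε, hb⟩ := Metric.eventually_nhds_iff_ball.1 h1
    refine ⟨ε, hε, fun t ht => ?_⟩
    have h2 := hb t (by
      rw [Metric.mem_ball, Real.dist_eq, abs_of_pos (by linarith [ht.1])]
      linarith [ht.2]) (ne_of_gt ht.1)
    rw [slope_def_field, show x t₀ = 0 from hx₀, sub_zero] at h2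
    exact (div_pos_iff_of_pos_right (by linarith [ht.1])).1 h2
  -- the first zero
  set Z : Set ℝ := {t | t₀ + ε / 2 ≤ t ∧ x t = 0} with hZ
  have hεT : ε ≤ T := by
    by_contra hcon
    push Not at hcon
    have h1 := hxε (t₀ + T) ⟨by linarith, by linarith⟩
    have h2 : x (t₀ + T) = x t₀ := by simp only [hx, hper]
    rw [h2, show x t₀ = 0 from hx₀] at h1
    exact lt_irrefl _ h1
  have hZne : Z.Nonempty := ⟨t₀ + T, by linarith, by simp only [hx, hper]; exact hx₀⟩
  have hZcl : IsClosed Z := isClosed_Ici.inter (isClosed_eq hxc continuous_const)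
  have hZbd : BddBelow Z := ⟨t₀ + ε / 2, fun t ht => ht.1⟩
  set t₁ := sInf Z with ht₁
  have ht₁Z : t₁ ∈ Z := hZcl.csInf_mem hZne hZbd
  have ht01 : t₀ < t₁ := by linarith [ht₁Z.1]
  have hxpos : ∀ t ∈ Ioo t₀ t₁, 0 < x t := by
    intro t ht
    by_contra hcon
    push Not at hcon
    have h1 : t₀ + ε / 2 ≤ t := by
      by_contra h2
      push Not at h2
      have := hxε t ⟨ht.1, by linarith⟩
      linarith
    -- a zero in `[t₀ + ε/2, t]`
    have h2 : 0 < x (t₀ + ε / 2) := hxε _ ⟨by linarith, by linarith⟩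
    obtain ⟨r, hr, hr0⟩ := intermediate_value_Icc' h1 hxc.continuousOn ⟨hcon, h2.le⟩
    have h3 : t₁ ≤ r := csInf_le hZbd ⟨hr.1, hr0⟩
    linarith [hr.2, ht.2]
  have hxnn : ∀ t ∈ Icc t₀ t₁, 0 ≤ x t := by
    intro t ht
    rcases ht.1.eq_or_lt with h1 | h1
    · rw [← h1]; exact le_of_eq hx₀.symm
    · rcases ht.2.eq_or_lt with h2 | h2
      · rw [h2]; exact le_of_eq ht₁Z.2.symm
      · exact (hxpos t ⟨h1, h2⟩).le
  have hgpos : ∀ t ∈ Ioo t₀ t₁, 0 < g (x t) := by
    intro t ht
    have h1 := hxpos t ht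
    have h2 := h.posg (x t) (ne_of_gt h1)
    exact (pos_iff_pos_of_mul_pos h2).1 h1
  have hyanti : StrictAntiOn y (Icc t₀ t₁) := by
    refine strictAntiOn_of_deriv_neg (convex_Icc _ _) hyc.continuousOn fun t ht => ?_
    rw [interior_Icc] at ht
    rw [(hyd t).deriv]
    linarith [hgpos t ht]
  -- the sign at `t₁`
  have hx1d : Φ 0 (y t₁) ≤ 0 := by
    have hd1 : HasDerivAt x (Φ 0 (y t₁)) t₁ := by
      have := hxd t₁
      rw [ht₁Z.2] at this
      simpa using this
    by_contra hcon
    push Not at hcon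
    have h1 : ∀ᶠ t in 𝓝[≠] t₁, 0 < slope x t₁ t :=
      (hasDerivAt_iff_tendsto_slope.1 hd1).eventually (lt_mem_nhds hcon)
    rw [eventually_nhdsWithin_iff] at h1
    obtain ⟨r, hr, hb⟩ := Metric.eventually_nhds_iff_ball.1 h1
    set t := max ((t₀ + t₁) / 2) (t₁ - r / 2) with htdef
    have htlt : t < t₁ := max_lt (by linarith) (by linarith)
    have htgt : t₀ < t := lt_of_lt_of_le (by linarith) (le_max_left _ _)
    have h2 := hb t (by
      rw [Metric.mem_ball, Real.dist_eq, abs_of_neg (by linarith)]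
      have := le_max_right ((t₀ + t₁) / 2) (t₁ - r / 2)
      linarith) (ne_of_lt htlt)
    rw [slope_def_field, ht₁Z.2, sub_zero] at h2
    have h3 := hxpos t ⟨htgt, htlt⟩
    have h4 : x t / (t - t₁) < 0 := div_neg_of_pos_of_neg h3 (by linarith)
    linarith
  have hy1 : y t₁ < 0 := by
    rcases lt_trichotomy (y t₁) 0 with h1 | h1 | h1
    · exact h1
    · exfalso
      have h2 : γ t₁ = (fun _ : ℝ => ((0 : ℝ), (0 : ℝ))) t₁ := Prod.ext ht₁Z.2 h1
      have h3 := t_UNI Φ g h s γ (fun _ => (0, 0)) hγ (fun t => by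
        have : fld Φ g s ((0 : ℝ), (0 : ℝ)) = 0 := by
          simp [fld, hΦ0, hg0]
        simp only [this]
        exact hasDerivAt_const t _) t₁ t₁ h2 (t₀ - t₁)
      rw [show t₁ + (t₀ - t₁) = t₀ by ring] at h3
      have h4 : y t₀ = 0 := by simp only [hy, h3]
      exact absurd h4 (ne_of_gt hy₀)
    · exfalso
      have h2 := h.posΦ (y t₁) (ne_of_gt h1)
      have h3 := (pos_iff_pos_of_mul_pos h2).1 h1
      linarith
  obtain ⟨τ, hτc, hτ, hτhi, hτlo⟩ := exists_inv ht01 hyc.continuousOn hyanti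
  set P : ℝ → ℝ := fun t => max t₀ (min t₁ t) with hP
  have hPid : ∀ t ∈ Icc t₀ t₁, P t = t := by
    intro t ht
    simp only [hP]
    rw [min_eq_right ht.2, max_eq_right ht.1]
  have hPc : Continuous P := continuous_const.max (continuous_const.min continuous_id)
  -- points
  have hivt : ∀ v ∈ Icc (y t₁) (y t₀), ∃ t ∈ Icc t₀ t₁, y t = v := by
    intro v hv
    obtain ⟨t, ht, h1⟩ := intermediate_value_Icc' ht01.le hyc.continuousOn hv
    exact ⟨t, ht, h1⟩
  have hτmem : ∀ v ∈ Icc (y t₁) (y t₀), τ v ∈ Icc t₀ t₁ ∧ y (τ v) = v := by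
    intro v hv
    obtain ⟨t, ht, rfl⟩ := hivt v hv
    rw [hτ t ht]
    exact ⟨ht, rfl⟩
  have hτmem' : ∀ v ∈ Ioo (y t₁) (y t₀), τ v ∈ Ioo t₀ t₁ := by
    intro v hv
    obtain ⟨h1, h2⟩ := hτmem v ⟨hv.1.le, hv.2.le⟩
    refine ⟨lt_of_le_of_ne h1.1 ?_, lt_of_le_of_ne h1.2 ?_⟩
    · intro h3
      rw [← h3] at h2
      exact (ne_of_lt hv.2) h2.symm
    · intro h3
      rw [h3] at h2
      exact (ne_of_gt hv.1) h2.symm
  set u : ℝ → ℝ := fun v => x (P (τ v)) with hu
  have hueq : ∀ v ∈ Icc (y t₁) (y t₀), u v = x (τ v) := by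
    intro v hv
    simp only [hu]
    rw [hPid _ (hτmem v hv).1]
  refine ⟨t₁, -y t₁, u, ht01, hxpos, ?_, ?_, ?_⟩
  · rw [neg_neg]
    exact Prod.ext ht₁Z.2 rfl
  · constructor
    · linarith
    · exact hy₀
    · exact hxc.comp (hPc.comp hτc)
    · intro v hv
      rw [neg_neg] at hv
      simp only [mem_Ioo, not_and_or, not_lt] at hv
      simp only [hu]
      rcases hv with hv | hv
      · have h1 : P (τ v) = t₁ := by
          simp only [hP]
          rw [min_eq_left (hτhi v hv), max_eq_right ht01.le]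
        rw [h1]
        exact ht₁Z.2
      · have h2 : P (τ v) = t₀ := by
          have h3 := hτlo v hv
          simp only [hP]
          rw [min_eq_right (h3.trans ht01.le), max_eq_left h3]
        rw [h2]
        exact hx₀
    · intro v hv
      rw [neg_neg] at hv
      rw [hueq v ⟨hv.1.le, hv.2.le⟩]
      exact hxpos _ (hτmem' v hv)
    · intro v hv
      rw [neg_neg] at hv
      have hvI : v ∈ Icc (y t₁) (y t₀) := ⟨hv.1.le, hv.2.le⟩
      have h1 := (hτmem v hvI).2
      have h2 := hgpos _ (hτmem' v hv)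
      have h3 : HasDerivAt τ (-g (x (τ v)))⁻¹ v := by
        refine HasDerivAt.of_local_left_inverse hτc.continuousAt (hyd (τ v))
          (neg_ne_zero.2 (ne_of_gt h2)) ?_
        filter_upwards [Ioo_mem_nhds hv.1 hv.2] with v' hv'
        exact (hτmem v' ⟨hv'.1.le, hv'.2.le⟩).2
      have h4 := (hxd (τ v)).comp v h3
      have h5 : u =ᶠ[𝓝 v] x ∘ τ := by
        filter_upwards [Ioo_mem_nhds hv.1 hv.2] with v' hv'
        exact hueq v' ⟨hv'.1.le, hv'.2.le⟩
      have h6 := h4.congr_of_eventuallyEq h5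
      rw [hueq v hvI]
      have h7 : -(Φ (x (τ v)) v - s * x (τ v)) / g (x (τ v)) =
          (Φ (x (τ v)) (y (τ v)) - s * x (τ v)) * (-g (x (τ v)))⁻¹ := by
        rw [h1, inv_neg, div_eq_mul_inv]
        ring
      rw [h7]
      exact h6
  · ext z
    constructor
    · rintro ⟨t, ht, rfl⟩
      have hanti := hyanti.antitoneOn
      have h1 : y t ∈ Icc (y t₁) (y t₀) :=
        ⟨hanti ht ⟨ht01.le, le_rfl⟩ ht.2, hanti ⟨le_rfl, ht01.le⟩ ht ht.1⟩
      refine ⟨by rw [neg_neg]; exact h1, ?_⟩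
      change x t = u (y t)
      rw [hueq _ h1, hτ t ht]
    · rintro ⟨hz1, hz2⟩
      rw [neg_neg] at hz1
      refine ⟨τ z.2, (hτmem _ hz1).1, ?_⟩
      refine Prod.ext ?_ (hτmem _ hz1).2
      rw [hz2, hueq _ hz1]

end Pool.Agent.J4H74.LI
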