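import Pool.Agent.J4H16.LI.Stm

set_option autoImplicit false

namespace Pool.Agent.J4H74.LI

open Set Filter Topology
open Pool.Agent.J4H16.LI

lemma fld_contDiff {Φ : ℝ → ℝ → ℝ} {g : ℝ → ℝ} (h : Sys Φ g) (s : ℝ) :
    ContDiff ℝ 1 (fld Φ g s) := by
  have h1 : ContDiff ℝ 1 (fun z : ℝ × ℝ => Φ z.1 z.2 - s * z.1) :=
    h.smΦ.sub (contDiff_const.mul contDiff_fst)
  have h2 : ContDiff ℝ 1 (fun z : ℝ × ℝ => - g z.1) := (h.smg.comp contDiff_fst).neg
  exact h1.prodMk h2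

/-- uniqueness for the solutions of a `C¹` field -/
lemma unique {X : ℝ × ℝ → ℝ × ℝ} (hX : ContDiff ℝ 1 X) {γ δ : ℝ → ℝ × ℝ}
    (hγ : ∀ t, HasDerivAt γ (X (γ t)) t) (hδ : ∀ t, HasDerivAt δ (X (δ t)) t)
    (h0 : γ 0 = δ 0) : γ = δ := by
  have hcγ : Continuous γ := continuous_iff_continuousAt.2 fun t => (hγ t).continuousAt
  have hcδ : Continuous δ := continuous_iff_continuousAt.2 fun t => (hδ t).continuousAt
  have hcl : IsClosed {t | γ t = δ t} := isClosed_eq hcγ hcδ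
  have hop : IsOpen {t | γ t = δ t} := by
    rw [isOpen_iff_mem_nhds]
    intro t₀ ht₀
    obtain ⟨K, U, hU, hK⟩ := (hX.contDiffAt (x := γ t₀)).exists_lipschitzOnWith
    have h1 : ∀ᶠ t in 𝓝 t₀, HasDerivAt γ (X (γ t)) t ∧ γ t ∈ U :=
      (hcγ.continuousAt.eventually hU).mono fun t ht => ⟨hγ t, ht⟩
    have h2 : ∀ᶠ t in 𝓝 t₀, HasDerivAt δ (X (δ t)) t ∧ δ t ∈ U := by
      have hU' : U ∈ 𝓝 (δ t₀) := by
        have : γ t₀ = δ t₀ := ht₀
        rw [← this]; exact hU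
      exact (hcδ.continuousAt.eventually hU').mono fun t ht => ⟨hδ t, ht⟩
    exact ODE_solution_unique_of_eventually (v := fun _ => X) (s := fun _ => U) (K := K)
      (Eventually.of_forall fun _ => hK) h1 h2 ht₀
  have huniv : {t | γ t = δ t} = univ := IsClopen.eq_univ ⟨hcl, hop⟩ ⟨0, h0⟩
  funext t
  have : t ∈ {t | γ t = δ t} := by rw [huniv]; trivial
  exact this

theorem t_UNI : S_UNI := by
  intro Φ g h s γ δ hγ hδ a b hab t
  have h1 := unique (fld_contDiff h s) (γ := fun t => γ (a + t)) (δ := fun t => δ (b + t))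
    (fun t => (hγ (a + t)).comp_const_add a t) (fun t => (hδ (b + t)).comp_const_add b t)
    (by simpa using hab)
  exact congrFun h1 t

end Pool.Agent.J4H74.LI
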